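import Mathlib

set_option autoImplicit false

/-!
# Weighted backward shifts on `ℓ²`
-/

namespace Pool.Agent.V11282.LD

noncomputable section

variable {𝕜 : Type} [RCLike 𝕜]

/-- `ℓ²(ℕ)` -/
abbrev ell (𝕜 : Type) [RCLike 𝕜] : Type := lp (fun _ : ℕ => 𝕜) 2

theorem two_toReal_pos : 0 < (2 : ENNReal).toReal := by norm_num

theorem ell_summable (x : ell 𝕜) : Summable fun n => ‖x n‖ ^ 2 := by
  have h := (lp.memℓp x).summable two_toReal_pos
  simpa using h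

theorem ell_norm_sq (x : ell 𝕜) : ‖x‖ ^ 2 = ∑' n, ‖x n‖ ^ 2 := by
  have h := lp.norm_rpow_eq_tsum two_toReal_pos x
  simpa using h

theorem ell_mem {f : ℕ → 𝕜} (h : Summable fun n => ‖f n‖ ^ 2) : Memℓp f 2 := by
  apply memℓp_gen
  simpa using h

/-- existence of the weighted backward shift -/
theorem exists_shift (w : ℕ → ℝ) (C : ℝ) (hC : ∀ n, |w n| ≤ C) :
    ∃ T : ell 𝕜 →L[𝕜] ell 𝕜, ∀ x n, (T x) n = (w (n + 1) : 𝕜) * x (n + 1) := by
  have hC0 : 0 ≤ C := (abs_nonneg _).trans (hC 0)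
  have hle : ∀ (x : ell 𝕜) (n : ℕ), ‖(w (n + 1) : 𝕜) * x (n + 1)‖ ^ 2 ≤ C ^ 2 * ‖x (n + 1)‖ ^ 2 := by
    intro x n
    rw [norm_mul, mul_pow]
    refine mul_le_mul_of_nonneg_right ?_ (by positivity)
    refine pow_le_pow_left₀ (norm_nonneg _) ?_ 2
    rw [RCLike.norm_ofReal]
    exact hC _
  have hsum : ∀ x : ell 𝕜, Summable fun n => C ^ 2 * ‖x (n + 1)‖ ^ 2 := fun x =>
    ((summable_nat_add_iff 1).2 (ell_summable x)).mul_left _
  have hs : ∀ x : ell 𝕜, Summable fun n => ‖(w (n + 1) : 𝕜) * x (n + 1)‖ ^ 2 := fun x =>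
    Summable.of_nonneg_of_le (fun n => by positivity) (hle x) (hsum x)
  let L : ell 𝕜 →ₗ[𝕜] ell 𝕜 :=
    { toFun := fun x => ⟨fun n => (w (n + 1) : 𝕜) * x (n + 1), ell_mem (hs x)⟩
      map_add' := by
        intro x y
        ext n
        show (w (n + 1) : 𝕜) * (x (n + 1) + y (n + 1)) = _ * x (n + 1) + _ * y (n + 1)
        ring
      map_smul' := by
        intro c x
        ext n
        show (w (n + 1) : 𝕜) * (c * x (n + 1)) = c * (_ * x (n + 1))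
        ring }
  refine ⟨L.mkContinuous C fun x => ?_, fun x n => rfl⟩
  have h1 : ‖L x‖ ^ 2 ≤ (C * ‖x‖) ^ 2 := by
    rw [ell_norm_sq, mul_pow, ell_norm_sq, ← tsum_mul_left]
    have h2 : ∑' n, ‖L x n‖ ^ 2 ≤ ∑' n, C ^ 2 * ‖x (n + 1)‖ ^ 2 :=
      (hs x).tsum_le_tsum (hle x) (hsum x)
    refine h2.trans ?_
    have h3 : Summable fun n => C ^ 2 * ‖x n‖ ^ 2 := (ell_summable x).mul_left _
    rw [h3.tsum_eq_zero_add]
    have : 0 ≤ C ^ 2 * ‖x 0‖ ^ 2 := by positivity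
    linarith
  exact (le_abs_self _).trans (abs_le_of_sq_le_sq h1 (by positivity))

/-- finitely supported vectors are dense -/
theorem exists_trunc {U : Set (ell 𝕜)} (hU : IsOpen U) {x : ell 𝕜} (hx : x ∈ U) :
    ∃ J : ℕ, ∑ m ∈ Finset.range (J + 1), lp.single (E := fun _ : ℕ => 𝕜) 2 m (x m) ∈ U := by
  have h := lp.hasSum_single (E := fun _ : ℕ => 𝕜) (p := 2) (by norm_num) x
  have h2 := h.tendsto_sum_nat
  have h3 := h2.eventually (hU.mem_nhds hx)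
  obtain ⟨J, hJ⟩ := Filter.eventually_atTop.1 h3
  exact ⟨J, hJ (J + 1) (by omega)⟩

end

end Pool.Agent.V11282.LD
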